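import Pool.Agent.X298.MD.Main

/-!
# Multiple Dirichlet series of quadratic `L`-functions: the hyperplane `w + (1/2) ∑ (s_j - 1/2) = 1`

The functional equations act on the real parts `(s_1, …, s_k, w)` by `refl J`, `J ⊆ {1, …, k}`. By Bochner's theorem `F_M`
continues from a tube over a connected open set `Ω` (which contains the region of absolute convergence) to the tube over the
convex hull of the union `orbit Ω` of the images of `Ω`. We determine the central points `(1/2, …, 1/2, w)` of this hull:
such a point is in the hull if and only if `Ω` has points on both sides of the hyperplane `inv = w`, where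
`inv = w + (1/2) ∑ (s_j - 1/2)` is invariant under the functional equations.

* For a union of regions `Re w > a_i, Re s_j > b_i` this is: `a_i + k (b_i - 1/2) / 2 < w` for some `i`.
* For the known region `a = 1/2`, `b = 5/4` the point `(1/2, …, 1/2, 1)` of the problem is reached if and only if `k = 1`.
* `F_M` continues to a tube domain which contains `(1/2, …, 1/2, 1)` if and only if it continues to a tube domain (containing
  the region of absolute convergence) with some point for which `w + (1/2) ∑ (s_j - 1/2) ≤ 1`.
-/

set_option autoImplicit false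

open Finset

namespace Pool.Agent.Results.MP_fed7ff_nt.BarrierHyperplane

open Pool.Agent.X298.MD

theorem result (k : ℕ) :
    -- the invariant
    (∀ (J : Finset (Fin k)) (x : Space k), inv (refl J x) = inv x) ∧
    -- the central points of the hull of the orbit of an arbitrary set
    (∀ (Ω : Set (Space k)) (w : ℝ), centre k w ∈ convexHull ℝ (orbit Ω) ↔
      (∃ x ∈ Ω, inv x ≤ w) ∧ ∃ x ∈ Ω, w ≤ inv x) ∧
    -- unions of regions
    (∀ (ι : Type) (a b : ι → ℝ) (w : ℝ), centre k w ∈ convexHull ℝ (orbit (⋃ i, region k (a i) (b i))) ↔
      ∃ i, a i + k * (b i - 1 / 2) / 2 < w) ∧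
    -- the known region
    (centre k 1 ∈ convexHull ℝ (orbit (region k (1 / 2) (5 / 4))) ↔ k ≤ 1) ∧
    -- properties of regions which pass to the hull of the orbit
    ∀ E : Set (Space k) → Prop, (∀ Ω, E Ω → E (convexHull ℝ (orbit Ω))) → ∀ w : ℝ,
      ((∃ Ω, E Ω ∧ centre k w ∈ Ω) ↔ ∃ Ω, E Ω ∧ (∃ x ∈ Ω, inv x ≤ w) ∧ ∃ x ∈ Ω, w ≤ inv x) :=
  ⟨inv_refl, main_sides, fun _ => main_regions, known_region, main_pred⟩

end Pool.Agent.Results.MP_fed7ff_nt.BarrierHyperplane
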