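import Pool.Agent.X110.LW9

/-!
# The values at small primes of the characters with large L-values near the central point

For odd squarefree `d` and `ε = ±1` let `χ` be the primitive real character with `χ(n) = (8εd|n)` (conductor `8d`) and
`L(σ, χ)` its L-function. For a real number `b` and an odd prime `p` let `law b p` be the probability on `{-1, 0, 1}` with
weights proportional to `1/(p+1)` at `0` and `p/(2(p+1)) (1 - η p^(-1/2))^(-b)` at `η = ±1`: the limit law of `χ(p)`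
over the family, tilted by the `b`-th power of the Euler factor of `L(1/2, χ)` at `p`.

Let `δ = δ(X) → 0` with `δ log X / loglog X → ∞`, let `ell = log (1/(2δ))` and
`size d = (2δ)^(1/2) L(1/2 + δ, χ)`. Let `S` be a finite set of odd primes. Over each of the following sets of odd
squarefree `d` in `(X, 2X]`, the values `χ(p)`, `p ∈ S`, become independent, with the given laws:

(1) `size d ≥ e^x`, where `x = x(X) ≥ 0` and `x / ell → b`: laws `law b p`;
(2) `size d ≤ e^(-x)`, where `x = x(X) ≥ 0` and `x / ell → b`: laws `law (-b) p`;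
(3) `A ≤ (2δ)^β size d ≤ B`, where `β = β(X) → b` (any real `b`) and `0 < A < B`: laws `law b p`.
-/

set_option autoImplicit false

namespace Pool.Agent.Results.MP_fed7ff_nt.PrimesAtLargeValues

open Finset Filter Topology

noncomputable section

/-- The odd squarefree `d` with `X < d ≤ 2X`. -/
def fam (X : ℕ) : Finset ℕ := (Ioc X (2 * X)).filter (fun d => Odd d ∧ Squarefree d)

/-- `Lv d σ = L(σ, χ)` for odd squarefree `d` and real `σ > 0`, where `χ` is the primitive real character mod `8d` with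
`χ(n) = (8εd|n)` for odd `n`. -/
def IsL (ε : ℤ) (Lv : ℕ → ℝ → ℝ) : Prop :=
  ∀ d : ℕ, Odd d → Squarefree d → ∃ (_ : NeZero (8 * d)) (χ : DirichletCharacter ℂ (8 * d)),
    χ.IsPrimitive ∧ χ ^ 2 = 1 ∧ (∀ n : ℕ, Odd n → χ (n : ZMod (8 * d)) = ((jacobiSym (8 * ε * d) n : ℤ) : ℂ)) ∧
      ∀ σ : ℝ, 0 < σ → DirichletCharacter.LFunction χ (σ : ℂ) = ((Lv d σ : ℝ) : ℂ)

open Classical in
/-- Among the `d` of the family with the property `P`, the proportion with `χ(p) = η p` for all `p ∈ S`. -/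
def share (ε : ℤ) (X : ℕ) (S : Finset ℕ) (η : ℕ → ℤ) (P : ℕ → Prop) : ℝ :=
  (#((fam X).filter fun d => P d ∧ ∀ p ∈ S, jacobiSym (8 * ε * d) p = η p) : ℝ) / (#((fam X).filter P) : ℝ)

/-- The normalised value `(2δ)^(1/2) L(1/2 + δ, χ)`. -/
def size (Lv : ℕ → ℝ → ℝ) (δ : ℝ) (d : ℕ) : ℝ := Real.sqrt (2 * δ) * Lv d (1 / 2 + δ)

/-- `log (1/(2δ))`. -/
def ell (δ : ℝ) : ℝ := Real.log (1 / (2 * δ))

/-- The weight of the value `η` at the prime `p`. -/
def weight (b : ℝ) (p : ℕ) (η : ℤ) : ℝ :=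
  if η = 0 then 1 / ((p : ℝ) + 1) else (p : ℝ) / (2 * (p + 1)) * (1 - η * Real.sqrt (1 / p)) ^ (-b)

/-- The probability of the value `η` at the prime `p`. -/
def law (b : ℝ) (p : ℕ) (η : ℤ) : ℝ := weight b p η / (weight b p 0 + weight b p 1 + weight b p (-1))

/-- The values at small primes of the characters with large values. -/
theorem result (ε : ℤ) (hε : ε = 1 ∨ ε = -1) :
    ∃ Lv : ℕ → ℝ → ℝ, IsL ε Lv ∧
    ∀ (S : Finset ℕ) (η : ℕ → ℤ), (∀ p ∈ S, p.Prime ∧ p ≠ 2) → (∀ p ∈ S, η p = 0 ∨ η p = 1 ∨ η p = -1) →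
    ∀ δ : ℕ → ℝ, Tendsto δ atTop (𝓝 0) → (∀ᶠ X in atTop, 0 < δ X) →
      Tendsto (fun X : ℕ => δ X * Real.log X / Real.log (Real.log X)) atTop atTop →
      (∀ (x : ℕ → ℝ) (b : ℝ), (∀ᶠ X in atTop, 0 ≤ x X) → Tendsto (fun X => x X / ell (δ X)) atTop (𝓝 b) →
        Tendsto (fun X => share ε X S η (fun d => Real.exp (x X) ≤ size Lv (δ X) d)) atTop
          (𝓝 (∏ p ∈ S, law b p (η p))) ∧
        Tendsto (fun X => share ε X S η (fun d => size Lv (δ X) d ≤ Real.exp (-x X))) atTop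
          (𝓝 (∏ p ∈ S, law (-b) p (η p)))) ∧
      ∀ (β : ℕ → ℝ) (b : ℝ), Tendsto β atTop (𝓝 b) → ∀ A B : ℝ, 0 < A → A < B →
        Tendsto (fun X => share ε X S η (fun d => A ≤ (2 * δ X) ^ β X * size Lv (δ X) d ∧
          (2 * δ X) ^ β X * size Lv (δ X) d ≤ B)) atTop (𝓝 (∏ p ∈ S, law b p (η p))) := by
  classical
  have hHyp := Pool.Agent.X110.QF.hyp8 hε
  set Lv := Pool.Agent.H306R2.RG.LLg (Pool.Agent.H306R2.RG.F8 ε) with hLv
  have hfam : Pool.Agent.H306R2.RG.Fam (Pool.Agent.H306R2.RG.F8 ε) := ⟨ε, hε, Or.inl rfl⟩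
  have hCG := Pool.Agent.H306R2.RG.LnkC.CGF _ hfam
  refine ⟨Lv, ?_, ?_⟩
  · intro d hd hsf
    obtain ⟨hN, χ, h1, h2, -, h3, h4⟩ := hCG.chi d hd hsf
    refine ⟨hN, χ, h1, h2, fun n hn => ?_, h4⟩
    have hn0 : n ≠ 0 := by rintro rfl; simp at hn
    have h5 := h3 n hn0
    have h6 : Pool.Agent.H306R2.RG.cf (Pool.Agent.H306R2.RG.F8 ε) d n = ((jacobiSym (8 * ε * d) n : ℤ) : ℝ) := by
      have hf : n.factorization 2 = 0 := Nat.factorization_eq_zero_of_not_dvd hn.not_two_dvd_nat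
      unfold Pool.Agent.H306R2.RG.cf Pool.Agent.H306R2.RG.jo
      rw [hf, pow_zero, pow_zero, Nat.div_one, one_mul, if_pos hn]
      unfold Pool.Agent.H306R2.RZ.js
      have e1 : (8 * ε * (d:ℤ)) = 2 ^ 2 * ((Pool.Agent.H306R2.RG.F8 ε).e * (d:ℤ)) := by
        show (8 * ε * (d:ℤ)) = 2 ^ 2 * (2 * ε * (d:ℤ))
        ring
      have e2 : jacobiSym (8 * ε * (d:ℤ)) n = jacobiSym ((Pool.Agent.H306R2.RG.F8 ε).e * (d:ℤ)) n := by
        have h8 : Nat.Coprime 2 n := Nat.coprime_two_left.mpr hn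
        rw [e1, jacobiSym.mul_left (2 ^ 2), jacobiSym.pow_left, jacobiSym.sq_one, one_mul]
        simpa [Int.gcd] using h8
      rw [e2]
    have h7 : ((Pool.Agent.H306R2.RG.cf (Pool.Agent.H306R2.RG.F8 ε) d n : ℝ) : ℂ) =
        ((jacobiSym (8 * ε * d) n : ℤ) : ℂ) := by
      rw [h6]
      push_cast
      rfl
    exact h5.trans h7
  · intro S η hS hη δ h1 h2 h3
    have hlaw : ∀ (b : ℝ), ∏ p ∈ S, law b p (η p) =
        ∏ q ∈ S, Pool.Agent.X110.LWL.Ep b q (Pool.Agent.X110.LWL.iv (η q)) := by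
      intro b
      refine prod_congr rfl fun p hp => ?_
      have hpp := (hS p hp).1
      have hy := Pool.Agent.X110.QF.yp_le hpp
      rw [Pool.Agent.X110.LWL.Ep_iv_val b (hη p hp)]
      have hw : ∀ s : ℤ, s = 0 ∨ s = 1 ∨ s = -1 → weight b p s = if s = 0 then 1 / ((p:ℝ) + 1) else
          (p:ℝ) / (2 * (p + 1)) * Pool.Agent.X110.QF.AA b (s * Pool.Agent.X110.QF.yp p) := by
        intro s hs
        unfold weight
        split_ifs with h0
        · rfl
        · rw [Pool.Agent.X110.LWL.AA_rpow]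
          · rfl
          · rcases hs with h | h | h
            · exact absurd h h0
            · rw [h]; simpa using hy
            · rw [h]; simpa using hy
      unfold law
      rw [hw (η p) (hη p hp), hw 0 (Or.inl rfl), hw 1 (Or.inr (Or.inl rfl)), hw (-1) (Or.inr (Or.inr rfl))]
      congr 1
      norm_num
      ring
    have hshare : ∀ (X : ℕ) (P : ℕ → Prop), share ε X S η P =
        Pool.Agent.X110.LWL.Me X (fun d => ∏ q ∈ S, Pool.Agent.X110.LWL.iv (η q) (Pool.Agent.X110.QF.chi ε d q)) P := by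
      intro X P
      unfold share Pool.Agent.X110.LWL.Me
      have e1 : ∀ d : ℕ, ∏ q ∈ S, Pool.Agent.X110.LWL.iv (η q) (Pool.Agent.X110.QF.chi ε d q) =
          if ∀ p ∈ S, jacobiSym (8 * ε * d) p = η p then (1:ℝ) else 0 := by
        intro d
        rw [← prod_boole]
        refine prod_congr rfl fun q hq => ?_
        have hodd : Odd q := (hS q hq).1.odd_of_ne_two (hS q hq).2
        unfold Pool.Agent.X110.LWL.iv
        rw [Pool.Agent.X110.LWL.chi_jac ε d hodd]
        simp only [Int.cast_inj]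
      simp_rw [e1]
      rw [← sum_filter, filter_filter, sum_const, nsmul_eq_mul, mul_one]
      try rfl
    refine ⟨fun x b hx hb => ⟨?_, ?_⟩, fun β b hβ A B hA hAB => ?_⟩
    · rw [hlaw]
      simp_rw [hshare]
      exact Pool.Agent.X110.LWL.jointLarge hε hHyp hS hη h1 h2 h3 hx hb
    · rw [hlaw]
      simp_rw [hshare]
      exact Pool.Agent.X110.LWL.jointSmall hε hHyp hS hη h1 h2 h3 hx hb
    · rw [hlaw]
      simp_rw [hshare]
      refine (Pool.Agent.X110.LWL.jointWindow hε hHyp hS hη h1 h2 h3 hβ hA hAB).congr' ?_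
      filter_upwards [h2] with X g2
      have h22 : 0 < 2 * δ X := by linarith
      have e1 : ∀ d, (2 * δ X) ^ (1 / 2 + β X) * Lv d (1 / 2 + δ X) = (2 * δ X) ^ β X * size Lv (δ X) d := by
        intro d
        unfold size
        rw [Real.sqrt_eq_rpow, Real.rpow_add h22]
        ring
      have e2 : (fun d => A ≤ (2 * δ X) ^ (1 / 2 + β X) * Lv d (1 / 2 + δ X) ∧
          (2 * δ X) ^ (1 / 2 + β X) * Lv d (1 / 2 + δ X) ≤ B) =
          fun d => A ≤ (2 * δ X) ^ β X * size Lv (δ X) d ∧ (2 * δ X) ^ β X * size Lv (δ X) d ≤ B := by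
        funext d
        rw [e1]
      rw [e2]

end

end Pool.Agent.Results.MP_fed7ff_nt.PrimesAtLargeValues
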