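import Pool.Agent.X110.LWA

/-!
# Moments of quadratic Dirichlet L-functions near the central point, twisted by character polynomials

For odd squarefree `d` and `ε = ±1` let `χ` be the primitive real character with `χ(n) = (8εd|n)` (conductor `8d`) and
`L(σ, χ)` its L-function. Let `W` be a real arithmetic function with `W(n) = 0` for `n > Q`. For complex `z` let
`moment δ V X z` be the mean value over the odd squarefree `d` in `(X, 2X]` of `(∑_{n odd} W(n) χ(n)) L(1/2 + δ, χ)^z`,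
restricted to the `d` with `1/V < L(1/2 + δ, χ) < V`. For `W(n) = 1` if `n = M` and `0` otherwise (`M` odd), the
twist is `χ(M)`.

(1) For every `r` there is `c > 0` such that for every `B`, uniformly in `|z| ≤ r`, in
`C loglog X / log X ≤ δ ≤ 1/16` and in `(log X)^A ≤ V ≤ X^(cδ)`,
`moment δ V X z = ∑_{m, k : mk = n^2, n odd} W(m) d_z(k) h(n) k^(-1/2-δ) + O((log X)^(-B))`, with `d_z` the coefficients
of `ζ^z` and `h(n) = ∏_{p | n} p/(p+1)`; the omitted `d` have proportion at most `(log X)^(-B)`.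

(2) If `δ = δ(X) → 0` and `log V / loglog X → ∞`, `log V / (δ log X) → 0`, then
`(2δ)^(z(z+1)/2) moment δ V X z → ∑_{M ≤ Q} W(M) a_M(z)` for every complex `z`, also when `z` varies with `X` in a
convergent way (so locally uniformly), where `a_M(z)` is the convergent product over the primes `p` of
`(1 - 1/p)^(z(z+1)/2) ∑_{e, k : p^v k = p^(2e)} d_z(k) h(p^e) k^(-1/2)`, `v = v_p(M)` (for `p = 2` only `e = 0`).
In particular the limit is `a_M(z)` for the twist `χ(M)`.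

(3) For multiplicative `W` the limit in (2) is the product over the primes `p` of
`(1 - 1/p)^(z(z+1)/2) ∑_e ∑_{mk = p^(2e)} W(m) d_z(k) h(p^e) k^(-1/2)` (for `p = 2` only `e = 0`).
-/

set_option autoImplicit false

namespace Pool.Agent.Results.MP_fed7ff_nt.TwistedMoments

open Finset Filter Topology

noncomputable section

/-- The odd squarefree `d` with `X < d ≤ 2X`. -/
def fam (X : ℕ) : Finset ℕ := (Ioc X (2 * X)).filter (fun d => Odd d ∧ Squarefree d)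

/-- `Lv d σ = L(σ, χ)` for odd squarefree `d` and real `σ > 0`, where `χ` is the primitive real character mod `8d` with
`χ(n) = (8εd|n)` for odd `n`. -/
def IsL (ε : ℤ) (Lv : ℕ → ℝ → ℝ) : Prop :=
  ∀ d : ℕ, Odd d → Squarefree d → ∃ (_ : NeZero (8 * d)) (χ : DirichletCharacter ℂ (8 * d)),
    χ.IsPrimitive ∧ χ ^ 2 = 1 ∧ (∀ n : ℕ, Odd n → χ (n : ZMod (8 * d)) = ((jacobiSym (8 * ε * d) n : ℤ) : ℂ)) ∧
      ∀ σ : ℝ, 0 < σ → DirichletCharacter.LFunction χ (σ : ℂ) = ((Lv d σ : ℝ) : ℂ)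

open Classical in
/-- The `d` of the family with `1/V < L(1/2 + δ, χ) < V`. -/
def good (Lv : ℕ → ℝ → ℝ) (δ V : ℝ) (X : ℕ) : Finset ℕ :=
  (fam X).filter (fun d => V⁻¹ < Lv d (1 / 2 + δ) ∧ Lv d (1 / 2 + δ) < V)

/-- The twist `∑_{n ≤ Q, n odd} W(n) χ(n)`. -/
def twist (ε : ℤ) (W : ArithmeticFunction ℝ) (Q d : ℕ) : ℝ :=
  ∑ n ∈ (Icc 1 Q).filter (fun n => Odd n), W n * ((jacobiSym (8 * ε * d) n : ℤ) : ℝ)

/-- The mean value of the twist times `L(1/2 + δ, χ)^z` over the family, restricted to `good`. -/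
def moment (ε : ℤ) (W : ArithmeticFunction ℝ) (Q : ℕ) (Lv : ℕ → ℝ → ℝ) (δ V : ℝ) (X : ℕ) (z : ℂ) : ℂ :=
  (∑ d ∈ good Lv δ V X, (twist ε W Q d : ℂ) * ((Lv d (1 / 2 + δ) : ℝ) : ℂ) ^ z) / ((#(fam X) : ℝ) : ℂ)

/-- `z (z + 1) ⋯ (z + m - 1) / m!`. -/
def bin (z : ℂ) (m : ℕ) : ℂ := ∏ i ∈ range m, (z + i) / ((i : ℂ) + 1)

/-- The coefficient `d_z(n)` of `n^(-s)` in `ζ(s)^z`. -/
def dk (z : ℂ) (n : ℕ) : ℂ := if n = 0 then 0 else n.factorization.prod fun _ e => bin z e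

/-- `h(n) = ∏_{p | n} p/(p + 1)`. -/
def h (n : ℕ) : ℝ := ∏ p ∈ n.primeFactors, (p : ℝ) / ((p : ℝ) + 1)

/-- `∑_{m | n^2} W(m) d_z(n^2/m) h(n) (n^2/m)^(-1/2-δ)` for odd `n`, and `0` for even `n`. -/
def term (W : ArithmeticFunction ℝ) (δ : ℝ) (z : ℂ) (n : ℕ) : ℂ :=
  if Odd n then (∑ m ∈ (n ^ 2).divisors, ((W m * (m : ℝ) ^ (1 / 2 + δ) : ℝ) : ℂ) * dk z (n ^ 2 / m)) *
    ((h n * (n : ℝ) ^ (-1 - 2 * δ) : ℝ) : ℂ) else 0

/-- The sum of the terms. -/
def diag (W : ArithmeticFunction ℝ) (δ : ℝ) (z : ℂ) : ℂ := ∑' n : ℕ, term W δ z n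

/-- `(1 - 1/p)^(z(z+1)/2)` times the sum of the terms with `δ = 0` over the powers of the prime `p`. -/
def factor (W : ArithmeticFunction ℝ) (z : ℂ) (p : ℕ) : ℂ :=
  ((1 - 1 / (p : ℝ) : ℝ) : ℂ) ^ (z * (z + 1) / 2) * ∑' e : ℕ, term W 0 z (p ^ e)

/-- The indicator function of `M`. -/
def single (M : ℕ) : ArithmeticFunction ℝ := ⟨fun n => if n ≠ 0 ∧ n = M then 1 else 0, by simp⟩

/-- The arithmetic factor `a_M(z)`. -/
def arith (M : ℕ) (z : ℂ) : ℂ := ∏' p : Nat.Primes, factor (single ((p : ℕ) ^ M.factorization p)) z p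

/-- Twisted moments of complex orders near the central point. -/
theorem result (ε : ℤ) (hε : ε = 1 ∨ ε = -1) :
    ∃ Lv : ℕ → ℝ → ℝ, IsL ε Lv ∧
    ∀ (W : ArithmeticFunction ℝ) (Q : ℕ), 1 ≤ Q → (∀ n : ℕ, Q < n → W n = 0) →
    (∀ r : ℝ, 0 ≤ r → ∃ c : ℝ, 0 < c ∧ ∀ B : ℕ, ∃ (A : ℕ) (C : ℝ) (X₀ : ℕ), 0 < C ∧ ∀ X : ℕ, X₀ ≤ X →
      ∀ δ : ℝ, C * Real.log (Real.log X) / Real.log X ≤ δ → δ ≤ 1 / 16 →
      ∀ V : ℝ, Real.log X ^ A ≤ V → V ≤ (X : ℝ) ^ (c * δ) →
      (#(fam X \ good Lv δ V X) : ℝ) ≤ (Real.log X ^ B)⁻¹ * #(fam X) ∧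
      ∀ z : ℂ, ‖z‖ ≤ r → Summable (fun n => ‖term W δ z n‖) ∧
        ‖moment ε W Q Lv δ V X z - diag W δ z‖ ≤ (Real.log X ^ B)⁻¹) ∧
    (∀ δ V : ℕ → ℝ, Tendsto δ atTop (𝓝 0) → (∀ᶠ X in atTop, 0 < δ X) → (∀ᶠ X in atTop, 1 ≤ V X) →
      Tendsto (fun X : ℕ => Real.log (V X) / Real.log (Real.log X)) atTop atTop →
      Tendsto (fun X : ℕ => Real.log (V X) / (δ X * Real.log X)) atTop (𝓝 0) → ∀ z₀ : ℂ,
      Tendsto (fun q : ℂ × ℕ => ((2 * δ q.2 : ℝ) : ℂ) ^ (q.1 * (q.1 + 1) / 2) *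
        moment ε W Q Lv (δ q.2) (V q.2) q.2 q.1) (𝓝 z₀ ×ˢ atTop) (𝓝 (∑ M ∈ Icc 1 Q, (W M : ℂ) * arith M z₀))) ∧
    (∀ (M : ℕ) (z : ℂ), Multipliable fun p : Nat.Primes => factor (single ((p : ℕ) ^ M.factorization p)) z p) ∧
    (W.IsMultiplicative →
      ∀ z : ℂ, HasProd (fun p : Nat.Primes => factor W z p) (∑ M ∈ Icc 1 Q, (W M : ℂ) * arith M z)) := by
  have hHyp := Pool.Agent.X110.QF.hyp8 hε
  set Lv := Pool.Agent.H306R2.RG.LLg (Pool.Agent.H306R2.RG.F8 ε) with hLv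
  have hfam : Pool.Agent.H306R2.RG.Fam (Pool.Agent.H306R2.RG.F8 ε) := ⟨ε, hε, Or.inl rfl⟩
  have hCG := Pool.Agent.H306R2.RG.LnkC.CGF _ hfam
  have hterm : ∀ W δ z n, term W δ z n = Pool.Agent.X110.QF.fw W z δ n := by
    intro W δ z n
    unfold term Pool.Agent.X110.QF.fw
    split_ifs with hn
    · congr 1
      rw [ArithmeticFunction.mul_apply, Nat.sum_divisorsAntidiagonal (fun a b =>
        Pool.Agent.X110.QF.WsC W (1 / 2 + δ) a * Pool.Agent.X110.QF.dAC z b)]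
      rfl
    · rfl
  have hdiag : ∀ W δ z, diag W δ z = Pool.Agent.X110.QF.SWC W z δ := by
    intro W δ z
    exact tsum_congr fun n => hterm W δ z n
  have htw : ∀ W Q d, twist ε W Q d = Pool.Agent.X110.QF.thW ε W Q d := by
    intro W Q d
    unfold twist Pool.Agent.X110.QF.thW
    rw [sum_filter]
    refine sum_congr rfl fun n _ => ?_
    split_ifs with hn
    · rw [Pool.Agent.X110.LWL.chi_jac ε d hn]
    · rw [Pool.Agent.X110.LWL.chi_even ε d hn, mul_zero]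
  have hmom : ∀ W Q δ V X z, moment ε W Q Lv δ V X z =
      Pool.Agent.X110.QF.MW V X (Pool.Agent.X110.QF.thW ε W Q) (fun d => Lv d (1 / 2 + δ)) z := by
    intro W Q δ V X z
    unfold moment good Pool.Agent.X110.QF.MW
    rw [sum_filter]
    congr 1
    refine sum_congr rfl fun d _ => ?_
    unfold Pool.Agent.X110.QF.tc
    rw [htw]
    split_ifs with h1
    · rfl
    · rw [mul_zero]
  have hbad : ∀ δ V X, (#(fam X \ good Lv δ V X) : ℝ) = ∑ d ∈ fam X, Pool.Agent.X110.QF.ib V (Lv d (1 / 2 + δ)) := by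
    intro δ V X
    classical
    have h1 : fam X \ good Lv δ V X = (fam X).filter (fun d => ¬ (V⁻¹ < Lv d (1 / 2 + δ) ∧ Lv d (1 / 2 + δ) < V)) := by
      ext d
      unfold good
      simp only [Finset.mem_sdiff, Finset.mem_filter]
      tauto
    rw [h1, card_filter, Nat.cast_sum]
    refine sum_congr rfl fun d _ => ?_
    unfold Pool.Agent.X110.QF.ib
    split_ifs <;> simp_all
  have hfactor : ∀ W z (p : ℕ), factor W z p = Pool.Agent.X110.QF.GW W z 0 p := by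
    intro W z p
    unfold factor Pool.Agent.X110.QF.GW Pool.Agent.X110.QF.FW Pool.Agent.X110.QF.ww
    rw [Pool.Agent.X110.LT.xp_zero]
    congr 1
    exact tsum_congr fun e => hterm W 0 z (p ^ e)
  have harith : ∀ M z, arith M z = Pool.Agent.X110.LWL.aM M z := by
    intro M z
    unfold arith Pool.Agent.X110.LWL.aM
    exact tprod_congr fun p => hfactor (single ((p : ℕ) ^ M.factorization p)) z p
  refine ⟨Lv, ?_, ?_⟩
  · intro d hd hsf
    obtain ⟨hN, χ, h1, h2, -, h3, h4⟩ := hCG.chi d hd hsf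
    refine ⟨hN, χ, h1, h2, fun n hn => ?_, h4⟩
    have hn0 : n ≠ 0 := by rintro rfl; simp at hn
    have h5 := h3 n hn0
    have h6 : Pool.Agent.H306R2.RG.cf (Pool.Agent.H306R2.RG.F8 ε) d n = ((jacobiSym (8 * ε * d) n : ℤ) : ℝ) := by
      have hf : n.factorization 2 = 0 := Nat.factorization_eq_zero_of_not_dvd hn.not_two_dvd_nat
      unfold Pool.Agent.H306R2.RG.cf Pool.Agent.H306R2.RG.jo
      rw [hf, pow_zero, pow_zero, Nat.div_one, one_mul, if_pos hn]
      unfold Pool.Agent.H306R2.RZ.js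
      have e1 : (8 * ε * (d:ℤ)) = 2 ^ 2 * ((Pool.Agent.H306R2.RG.F8 ε).e * (d:ℤ)) := by
        show (8 * ε * (d:ℤ)) = 2 ^ 2 * (2 * ε * (d:ℤ))
        ring
      have e2 : jacobiSym (8 * ε * (d:ℤ)) n = jacobiSym ((Pool.Agent.H306R2.RG.F8 ε).e * (d:ℤ)) n := by
        have h8 : Nat.Coprime 2 n := Nat.coprime_two_left.mpr hn
        rw [e1, jacobiSym.mul_left (2 ^ 2), jacobiSym.pow_left, jacobiSym.sq_one, one_mul]
        simpa [Int.gcd] using h8
      rw [e2]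
    have h7 : ((Pool.Agent.H306R2.RG.cf (Pool.Agent.H306R2.RG.F8 ε) d n : ℝ) : ℂ) =
        ((jacobiSym (8 * ε * d) n : ℤ) : ℂ) := by
      rw [h6]
      push_cast
      rfl
    exact h5.trans h7
  · intro W Q hQ hW
    refine ⟨?_, ?_, ?_, fun hm z => ?_⟩
    · intro r hr
      obtain ⟨c1, hc1, H1⟩ := Pool.Agent.X110.QF.cmom hε hHyp hr
      obtain ⟨c2, hc2, H2⟩ := Pool.Agent.X110.QF.cmomW hε hHyp hQ hW hr
      refine ⟨min c1 c2, lt_min hc1 hc2, fun B => ?_⟩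
      obtain ⟨A1, C1, X1, hC1, H1⟩ := H1 B
      obtain ⟨A2, C2, X2, hC2, H2⟩ := H2 B
      refine ⟨max A1 A2, max C1 C2, max (max X1 X2) 3, lt_of_lt_of_le hC1 (le_max_left _ _),
        fun X hX δ hδ hδ1 V hV1 hV2 => ?_⟩
      have hX1 : X1 ≤ X := (le_max_left _ _).trans ((le_max_left _ _).trans hX)
      have hX2 : X2 ≤ X := (le_max_right _ _).trans ((le_max_left _ _).trans hX)
      have hX3 : 3 ≤ X := (le_max_right _ _).trans hX
      have hX3' : (3:ℝ) ≤ X := by exact_mod_cast hX3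
      have hL : 1 ≤ Real.log X := by
        rw [Real.le_log_iff_exp_le (by linarith)]
        exact Real.exp_one_lt_three.le.trans hX3'
      have hLL : 0 ≤ Real.log (Real.log X) / Real.log X :=
        div_nonneg (Real.log_nonneg hL) (by linarith)
      have k1 : C1 * Real.log (Real.log X) / Real.log X ≤ δ := by
        refine le_trans ?_ hδ
        rw [mul_div_assoc, mul_div_assoc]
        exact mul_le_mul_of_nonneg_right (le_max_left _ _) hLL
      have k2 : C2 * Real.log (Real.log X) / Real.log X ≤ δ := by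
        refine le_trans ?_ hδ
        rw [mul_div_assoc, mul_div_assoc]
        exact mul_le_mul_of_nonneg_right (le_max_right _ _) hLL
      obtain ⟨-, hδ0, -, H3⟩ := H1 X hX1 δ k1 hδ1
      obtain ⟨-, -, -, H4⟩ := H2 X hX2 δ k2 hδ1
      have hXe : ∀ c, min c1 c2 ≤ c → V ≤ (X:ℝ) ^ (c * δ) := fun c hc =>
        hV2.trans (Real.rpow_le_rpow_of_exponent_le (by linarith) (mul_le_mul_of_nonneg_right hc hδ0.le))
      obtain ⟨g1, -⟩ := H3 V ((pow_le_pow_right₀ hL (le_max_left _ _)).trans hV1) (hXe c1 (min_le_left _ _))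
      have g2 := H4 V ((pow_le_pow_right₀ hL (le_max_right _ _)).trans hV1) (hXe c2 (min_le_right _ _))
      refine ⟨?_, fun z hz => ⟨?_, ?_⟩⟩
      · rw [hbad, mul_comm]
        exact g1
      · obtain ⟨K, hK⟩ := exists_nat_ge ‖z‖
        have hz2 : ‖z‖ ≤ ((2 * K : ℕ) : ℝ) := by
          have h2 : (0:ℝ) ≤ K := Nat.cast_nonneg K
          push_cast
          linarith
        exact (Pool.Agent.X110.QF.fw_summable hW hz2 hδ0 (by linarith)).congr fun n => by rw [hterm]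
      · rw [hmom, hdiag]
        exact g2 z hz
    · intro δ V h1 h2 h3 h4 h5 z₀
      have hA : Pool.Agent.X110.QF.AdmN δ V := ⟨h1, h3, h2, h4, h5⟩
      simp_rw [harith]
      refine (Pool.Agent.X110.LWL.modGaussA hε hHyp hQ hW hA z₀).congr fun q => ?_
      rw [hmom]
      rfl
    · intro M z
      refine (Pool.Agent.X110.LWL.aM_hasProd M z).multipliable.congr fun p => ?_
      exact (hfactor (single ((p : ℕ) ^ M.factorization p)) z p).symm
    · simp_rw [harith]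
      rw [Pool.Agent.X110.LWL.aW_eq hW hm z]
      refine (Pool.Agent.X110.LWL.GW_mult hW hm z).hasProd.congr_fun fun p => ?_
      exact hfactor W z p

end

end Pool.Agent.Results.MP_fed7ff_nt.TwistedMoments
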